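import Mathlib

/-! Integers with restricted digits in the residue classes modulo the powers of `2` (helper67). -/

set_option autoImplicit false

namespace Pool.Agent.K7.H67.EXC

open Finset

/-- The natural numbers below `B ^ K` all of whose `K` digits in base `B` belong to `W`. -/
def res (B K : ℕ) (W : Finset ℕ) : Finset ℕ := (range (B ^ K)).filter (fun n => ∀ j < K, n / B ^ j % B ∈ W)

lemma card_res (B : ℕ) (hB : 1 ≤ B) (W : Finset ℕ) (hW : W ⊆ range B) (K : ℕ) : (res B K W).card = W.card ^ K := by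
  classical
  induction K with
  | zero =>
    unfold res
    rw [pow_zero, pow_zero, filter_true_of_mem]
    · rw [card_range]
    · intro n _ j hj
      omega
  | succ K ih =>
    rw [pow_succ', ← ih, ← card_product]
    symm
    refine card_nbij' (fun z => z.1 + B * z.2) (fun n => (n % B, n / B)) ?_ ?_ ?_ ?_
    · rintro ⟨w, m⟩ hz
      rw [mem_coe, mem_product] at hz
      obtain ⟨hw, hm⟩ := hz
      simp only at hw hm ⊢
      have hwB := mem_range.1 (hW hw)
      unfold res at hm ⊢
      rw [mem_filter, mem_range] at hm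
      rw [mem_coe, mem_filter, mem_range]
      constructor
      · have h1 : B * (m + 1) ≤ B * B ^ K := Nat.mul_le_mul_left _ hm.1
        rw [pow_succ']
        rw [mul_add, mul_one] at h1
        omega
      · intro j hj
        rcases Nat.eq_zero_or_pos j with h0 | h0
        · rw [h0, pow_zero, Nat.div_one, Nat.add_mul_mod_self_left, Nat.mod_eq_of_lt hwB]
          exact hw
        · obtain ⟨i, rfl⟩ : ∃ i, j = i + 1 := ⟨j - 1, by omega⟩
          have h2 : (w + B * m) / B ^ (i + 1) = m / B ^ i := by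
            rw [pow_succ', ← Nat.div_div_eq_div_mul, Nat.add_mul_div_left _ _ (by omega), Nat.div_eq_of_lt hwB, zero_add]
          rw [h2]
          exact hm.2 i (by omega)
    · intro n hn
      unfold res at hn
      rw [mem_coe, mem_filter, mem_range] at hn
      rw [mem_coe, mem_product]
      simp only
      constructor
      · have h1 := hn.2 0 (by omega)
        rwa [pow_zero, Nat.div_one] at h1
      · unfold res
        rw [mem_filter, mem_range]
        constructor
        · rw [Nat.div_lt_iff_lt_mul (by omega), mul_comm, ← pow_succ']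
          exact hn.1
        · intro j hj
          have h1 := hn.2 (j + 1) (by omega)
          rwa [pow_succ', ← Nat.div_div_eq_div_mul] at h1
    · rintro ⟨w, m⟩ hz
      rw [mem_coe, mem_product] at hz
      have hwB := mem_range.1 (hW hz.1)
      simp only at hwB ⊢
      rw [Nat.add_mul_mod_self_left, Nat.mod_eq_of_lt hwB, Nat.add_mul_div_left _ _ (by omega), Nat.div_eq_of_lt hwB, zero_add]
    · intro n _
      simp only
      rw [add_comm]
      exact Nat.div_add_mod n B

lemma class_res (B : ℕ) (hB : 1 ≤ B) (W : Finset ℕ) (hW : W ⊆ range B) (K m : ℕ) (hm : m ≤ K) (a : ℤ) :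
    ((res B K W).filter (fun n : ℕ => (n : ℤ) ≡ a [ZMOD (B : ℤ) ^ m])).card ≤ W.card ^ (K - m) := by
  classical
  rw [← card_res B hB W hW (K - m)]
  apply card_le_card_of_injOn (fun n => n / B ^ m)
  · intro n hn
    rw [mem_coe, mem_filter] at hn
    have hn1 := hn.1
    unfold res at hn1 ⊢
    rw [mem_filter, mem_range] at hn1
    rw [mem_coe, mem_filter, mem_range]
    constructor
    · rw [Nat.div_lt_iff_lt_mul (by positivity), ← pow_add]
      rw [Nat.sub_add_cancel hm]
      exact hn1.1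
    · intro j hj
      rw [Nat.div_div_eq_div_mul, ← pow_add]
      exact hn1.2 (m + j) (by omega)
  · intro n hn n' hn' h
    rw [mem_coe, mem_filter] at hn hn'
    simp only at h
    have h1 : (n : ℤ) ≡ (n' : ℤ) [ZMOD ((B ^ m : ℕ) : ℤ)] := by
      push_cast
      exact hn.2.trans hn'.2.symm
    have h2 : n % B ^ m = n' % B ^ m := (Int.natCast_modEq_iff).1 h1
    rw [← Nat.div_add_mod n (B ^ m), ← Nat.div_add_mod n' (B ^ m), h, h2]

/-- the numbers with restricted digits in base `2 ^ L` are spread -/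
lemma spread_res (L : ℕ) (hL : 1 ≤ L) (τ : ℝ) (hτ : 0 < τ) (hτ1 : τ ≤ 1) (W : Finset ℕ) (hW : W ⊆ range (2 ^ L))
    (hWc : ((2 : ℝ) ^ L) ^ (1 - τ) ≤ W.card) (K : ℕ) (n : ℕ) (hn : n ≤ L * K) (a : ℤ) :
    (((res (2 ^ L) K W).filter (fun x : ℕ => (x : ℤ) ≡ a [ZMOD (2 : ℤ) ^ n])).card : ℝ) ≤
      2 ^ L * ((res (2 ^ L) K W).card : ℝ) / ((2 : ℝ) ^ n) ^ (1 - τ) := by
  classical
  obtain ⟨m, hm⟩ : ∃ m, m = n / L := ⟨_, rfl⟩
  have hmn : L * m ≤ n := by rw [hm]; exact Nat.mul_div_le _ _
  have hnm : n ≤ L * m + L := by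
    have h1 := Nat.lt_mul_div_succ n (by omega : 0 < L)
    rw [← hm, mul_add, mul_one] at h1
    omega
  have hmK : m ≤ K := by
    rw [hm]
    apply Nat.div_le_of_le_mul
    exact hn
  have h0 : (0 : ℝ) < ((2 : ℝ) ^ L) ^ (1 - τ) := by positivity
  have hWp : (0 : ℝ) < W.card := by linarith
  have h1 := class_res (2 ^ L) (Nat.one_le_two_pow) W hW K m hmK a
  have h2 : (((res (2 ^ L) K W).filter (fun x : ℕ => (x : ℤ) ≡ a [ZMOD (2 : ℤ) ^ n])).card : ℝ) ≤ (W.card : ℝ) ^ (K - m) := by
    refine le_trans ?_ (by exact_mod_cast h1 : (((res (2 ^ L) K W).filter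
      (fun x : ℕ => (x : ℤ) ≡ a [ZMOD ((2 ^ L : ℕ) : ℤ) ^ m])).card : ℝ) ≤ (W.card : ℝ) ^ (K - m))
    apply Nat.cast_le.2
    apply card_le_card
    intro x hx
    rw [mem_filter] at hx ⊢
    refine ⟨hx.1, ?_⟩
    push_cast
    rw [← pow_mul]
    exact hx.2.of_dvd (pow_dvd_pow _ hmn)
  refine h2.trans ?_
  rw [card_res _ (Nat.one_le_two_pow) W hW K, le_div_iff₀ (by positivity)]
  push_cast
  have h3 : ((2 : ℝ) ^ n) ^ (1 - τ) ≤ 2 ^ L * (W.card : ℝ) ^ m := by
    calc ((2 : ℝ) ^ n) ^ (1 - τ) ≤ ((2 : ℝ) ^ (L * m + L)) ^ (1 - τ) := by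
          apply Real.rpow_le_rpow (by positivity) _ (by linarith)
          exact pow_le_pow_right₀ (by norm_num) hnm
      _ = (((2 : ℝ) ^ L) ^ (1 - τ)) ^ m * ((2 : ℝ) ^ L) ^ (1 - τ) := by
          rw [pow_add, Real.mul_rpow (by positivity) (by positivity), pow_mul]
          congr 1
          rw [← Real.rpow_natCast (((2 : ℝ) ^ L)) m, ← Real.rpow_mul (by positivity), mul_comm, Real.rpow_mul (by positivity),
            Real.rpow_natCast]
      _ ≤ (W.card : ℝ) ^ m * 2 ^ L := by
          apply mul_le_mul _ _ h0.le (by positivity)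
          · exact pow_le_pow_left₀ h0.le hWc m
          · calc ((2 : ℝ) ^ L) ^ (1 - τ) ≤ ((2 : ℝ) ^ L) ^ (1 : ℝ) :=
                  Real.rpow_le_rpow_of_exponent_le (one_le_pow₀ (by norm_num)) (by linarith)
              _ = 2 ^ L := Real.rpow_one _
      _ = _ := by ring
  calc (W.card : ℝ) ^ (K - m) * ((2 : ℝ) ^ n) ^ (1 - τ) ≤ (W.card : ℝ) ^ (K - m) * (2 ^ L * (W.card : ℝ) ^ m) := by gcongr
    _ = 2 ^ L * ((W.card : ℝ) ^ (K - m) * (W.card : ℝ) ^ m) := by ring
    _ = _ := by rw [← pow_add, Nat.sub_add_cancel hmK]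

end Pool.Agent.K7.H67.EXC
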