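import Pool.Agent.Y57.HS.Cls

/-!
# Trajectories of generalised Collatz maps at the values of polynomials at the members of families satisfying a Frostman
# condition for the residue classes modulo the powers of `d` (helper67)
-/

set_option autoImplicit false

namespace Pool.Agent.K7.H67.EXC

open Finset Filter Polynomial
open Pool.Agent.Y927.GP Pool.Agent.H319R2.M
open Pool.Agent.Y57.HS (classes)

open Classical in
/-- the Frostman condition down to the scale `X` -/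
def Fro {ι : Type} (d : ℕ) (T : Finset ι) (t : ι → ℤ) (C₀ τ X : ℝ) : Prop :=
  ∀ n : ℕ, (d : ℝ) ^ n ≤ X → ∀ a : ℤ, ((T.filter (fun i => t i ≡ a [ZMOD (d : ℤ) ^ n])).card : ℝ) ≤
    C₀ * T.card / ((d : ℝ) ^ n) ^ (1 - τ)

/-- few members have small values -/
lemma few_lowF {f : ℤ[X]} (hd : 1 ≤ f.natDegree) : ∃ C : ℝ, 0 < C ∧ ∀ Z : ℝ, 1 ≤ Z → ∀ (ι : Type) (T A : Finset ι) (t : ι → ℤ) (B : ℝ),
    A ⊆ T → 0 ≤ B → (∀ a : ℤ, ((A.filter (fun i => t i = a)).card : ℝ) ≤ B) →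
    (∀ i ∈ A, |((f.eval (t i) : ℤ) : ℝ)| < Z) → (A.card : ℝ) ≤ C * Z ^ (1 / (f.natDegree : ℝ)) * B := by
  classical
  obtain ⟨C, hC, h⟩ := few_small hd
  refine ⟨C, hC, fun Z hZ ι T A t B _ hB hcls hz => ?_⟩
  have h1 := h Z hZ (A.image t) (by
    intro n hn
    rw [mem_image] at hn
    obtain ⟨i, hi, rfl⟩ := hn
    exact hz i hi)
  have h2 : A.card = ∑ a ∈ A.image t, (A.filter (fun i => t i = a)).card :=
    card_eq_sum_card_fiberwise (fun i hi => mem_image_of_mem _ hi)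
  rw [h2]
  push_cast
  calc ∑ a ∈ A.image t, ((A.filter (fun i => t i = a)).card : ℝ) ≤ ∑ _a ∈ A.image t, B := sum_le_sum (fun a _ => hcls a)
    _ = ((A.image t).card : ℝ) * B := by rw [sum_const, nsmul_eq_mul]
    _ ≤ _ := mul_le_mul_of_nonneg_right h1 hB

/-- **Trajectories of the values of polynomials at the members of a family.** -/
theorem trajF {g : GM} {b : ℤ → ℤ} {e : ℤ → ℕ} {C : Finset (ℤ × ℕ)} {ρ : ℤ × ℕ → ℝ} (hf : g.Fac b e)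
    (hC : g.Cls e C ρ) {f : ℤ[X]} (hdeg : 1 ≤ f.natDegree) {ε : ℝ} (hε : 0 < ε) (H : ℝ) :
    ∃ c δ τ : ℝ, 0 < c ∧ c ≤ 1 ∧ 0 < δ ∧ 0 < τ ∧ ∀ C₀ : ℝ, 0 < C₀ → ∃ y₀ : ℕ, ∀ y : ℕ, y₀ ≤ y → ∀ X : ℝ, 1 ≤ X →
    ∀ (ι : Type) (T : Finset ι) (t : ι → ℤ), Fro g.d T t C₀ τ X →
    ∀ A ⊆ T, (∀ i ∈ A, f.eval (t i) ∈ g.SC C ∧
      ∃ Y : ℝ, y ≤ Y ∧ Y ≤ X ^ c ∧ ¬ ((X ^ c) ^ H ≤ |((f.eval (t i) : ℤ) : ℝ)| ∧ Typ g (mu g C ρ) ε Y (f.eval (t i)))) →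
    (A.card : ℝ) ≤ (y : ℝ) ^ (-δ) * T.card := by
  classical
  set μ := mu g C ρ with hμ
  have hd2 := g.two_le
  have hd1 : (1 : ℝ) < g.d := by have := g.dr; linarith
  have hd0 : (0 : ℝ) < g.d := by linarith
  have hL : 0 < Real.log g.d := Real.log_pos hd1
  set κ : ℝ := max 0 (-μ / Real.log g.d) with hκdef
  have hκ0 : 0 ≤ κ := le_max_left _ _
  have hκ : -μ ≤ κ * Real.log g.d := by
    have h1 : -μ / Real.log g.d ≤ κ := le_max_right _ _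
    rwa [div_le_iff₀ hL] at h1
  set D : ℝ := max (κ + 4) H with hD
  have hD4 : κ + 4 ≤ D := le_max_left _ _
  have hDH : H ≤ D := le_max_right _ _
  have hD0 : 0 < D := by linarith
  set ε1 : ℝ := min ε 1 with hε1
  have hε10 : 0 < ε1 := lt_min hε one_pos
  have hε1ε : ε1 ≤ ε := min_le_left _ _
  have hε1β : ε1 ≤ (D - κ) / 4 := by
    have : ε1 ≤ 1 := min_le_right _ _
    linarith
  obtain ⟨δ1, K1, hδ10, hδ11, hK1, hcls⟩ := classes hf hC hdeg (η := ε1 / 4 * Real.log g.d) (by positivity)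
  obtain ⟨C3, hC3, hlow⟩ := few_lowF hdeg
  obtain ⟨Y0, hY01, hlarge⟩ := large g.d hd2 (show (0 : ℝ) < 1 by norm_num) (show 0 < ε1 / 4 by positivity)
    (show 0 < (D - κ) / 2 by linarith) g.R_nonneg 0
  obtain ⟨c, hc⟩ : ∃ c : ℝ, c = 1 / (4 * D + 4) := ⟨_, rfl⟩
  have hc0 : 0 < c := by rw [hc]; positivity
  have hcD : c * D ≤ 1 / 4 ∧ c ≤ 1 / 4 := by
    have h1 : c * (4 * D + 4) = 1 := by rw [hc]; field_simp
    constructor <;> nlinarith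
  obtain ⟨ϑ, hϑ⟩ : ∃ ϑ : ℝ, ϑ = (g.d : ℝ) ^ (-(δ1 / 2)) := ⟨_, rfl⟩
  have hϑ0 : 0 < ϑ := by rw [hϑ]; positivity
  have hϑ1 : ϑ < 1 := by
    rw [hϑ]
    exact Real.rpow_lt_one_of_one_lt_of_neg hd1 (by linarith)
  have h1ϑ : 0 < 1 - ϑ := by linarith
  obtain ⟨δ, hδ⟩ : ∃ δ : ℝ, δ = min (δ1 / 4) (1 / 2) := ⟨_, rfl⟩
  have hδ0 : 0 < δ := by rw [hδ]; exact lt_min (by positivity) (by norm_num)
  refine ⟨c, δ, δ1 / 2, hc0, by linarith [hcD.2], hδ0, by positivity, fun C₀ hC₀ => ?_⟩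
  obtain ⟨B, hB⟩ : ∃ B : ℝ, B = C3 * (C₀ * g.d) + K1 * C₀ * (g.d : ℝ) ^ (δ1 / 2) / (1 - ϑ) := ⟨_, rfl⟩
  have hB0 : 0 < B := by rw [hB]; positivity
  have hev : ∀ᶠ y : ℕ in atTop, (1 : ℝ) ≤ y ∧ Y0 ≤ y ∧ B ≤ (y : ℝ) ^ δ := by
    have h1 : Tendsto (fun x : ℕ => (x : ℝ)) atTop atTop := tendsto_natCast_atTop_atTop
    have h2 : Tendsto (fun x : ℕ => (x : ℝ) ^ δ) atTop atTop := (tendsto_rpow_atTop hδ0).comp h1
    filter_upwards [h1.eventually (eventually_ge_atTop _), h1.eventually (eventually_ge_atTop _),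
      h2.eventually (eventually_ge_atTop _)] with y a1 a2 a4
    exact ⟨a1, a2, a4⟩
  obtain ⟨y₀, hy₀⟩ := eventually_atTop.1 hev
  refine ⟨y₀, fun y hy X hX ι T t hT A hA hbad => ?_⟩
  obtain ⟨hy1, hyY0, hyB⟩ := hy₀ y hy
  have hyp : (0 : ℝ) < y := by linarith
  have hch0 : (0 : ℝ) ≤ (T.card : ℝ) := Nat.cast_nonneg _
  have hXp : 0 < X := by linarith
  rcases A.eq_empty_or_nonempty with hA0 | ⟨i₀, hi₀⟩
  · rw [hA0, card_empty, Nat.cast_zero]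
    positivity
  have hyr : (y : ℝ) ≤ X ^ c := by
    obtain ⟨-, Y, h1, h2, -⟩ := hbad i₀ hi₀
    exact h1.trans h2
  have hXc1 : 1 ≤ X ^ c := Real.one_le_rpow hX hc0.le
  have hXcX : X ^ c ≤ X := by
    calc X ^ c ≤ X ^ (1 : ℝ) := Real.rpow_le_rpow_of_exponent_le hX (by linarith [hcD.2])
      _ = X := Real.rpow_one _
  have hlX : 0 ≤ Real.log X := Real.log_nonneg hX
  set M : ℕ := ⌊c * Real.log X / Real.log g.d⌋₊ + 1 with hM
  set N0 : ℕ := Nat.log g.d y with hN0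
  have hy0' : y ≠ 0 := by
    intro h
    rw [h] at hy1
    norm_num at hy1
  set W : ℕ → Finset ℤ := fun n1 => (Ioc (-1 : ℤ) (-1 + (g.d : ℤ) ^ n1)).filter (fun n => ∃ x : ℤ,
    x ≡ n [ZMOD (g.d : ℤ) ^ n1] ∧ f.eval x ∈ g.SC C ∧ Unb g μ (ε1 / 4 * Real.log g.d) n1 (f.eval x)) with hW
  have hWcard : ∀ n1, ((W n1).card : ℝ) ≤ K1 * ((g.d : ℝ) ^ n1) ^ (1 - δ1) := by
    intro n1
    refine hcls n1 (W n1) (filter_subset _ _) ?_
    intro n hn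
    rw [hW] at hn
    exact (mem_filter.1 hn).2
  set A1 := A.filter (fun i => |((f.eval (t i) : ℤ) : ℝ)| < (X ^ c) ^ D) with hA1
  have hsub : A ⊆ A1 ∪ (Ico N0 M).biUnion (fun n1 => T.filter (fun i => t i % (g.d : ℤ) ^ n1 ∈ W n1)) := by
    intro i hi
    rw [mem_union]
    by_cases hsm : |((f.eval (t i) : ℤ) : ℝ)| < (X ^ c) ^ D
    · left
      rw [hA1, mem_filter]
      exact ⟨hi, hsm⟩
    right
    push Not at hsm
    obtain ⟨hSC, Y, hY1, hY2, hnT⟩ := hbad i hi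
    have hTy : ¬ Typ g μ ε Y (f.eval (t i)) := by
      intro h
      apply hnT
      refine ⟨?_, h⟩
      exact (Real.rpow_le_rpow_of_exponent_le hXc1 hDH).trans hsm
    have hY : 1 ≤ Y := hy1.trans hY1
    obtain ⟨n1, hn1, hn2, -⟩ := scale g.d hd2 Y hY
    obtain ⟨-, hYε, hRN⟩ := hlarge Y (hyY0.trans hY1) n1 hn1 hn2
    have hU : Unb g μ (ε1 / 4 * Real.log g.d) n1 (f.eval (t i)) := by
      by_contra hU
      apply hTy
      apply typ_of g hκ0 hκ hε10 hε1ε hε1β hY hn1 hn2 hYε hRN _ hU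
      refine le_trans ?_ hsm
      calc Y ^ (D - ε1) ≤ Y ^ D := Real.rpow_le_rpow_of_exponent_le hY (by linarith)
        _ ≤ (X ^ c) ^ D := Real.rpow_le_rpow (by linarith) hY2 hD0.le
    rw [mem_biUnion]
    refine ⟨n1, ?_, ?_⟩
    · rw [mem_Ico]
      constructor
      · have h1 : g.d ^ N0 ≤ y := Nat.pow_log_le_self _ hy0'
        have h2 : ((g.d ^ N0 : ℕ) : ℝ) < (g.d : ℝ) ^ (n1 + 1) := by
          have : ((g.d ^ N0 : ℕ) : ℝ) ≤ y := by exact_mod_cast h1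
          linarith
        have h3 : g.d ^ N0 < g.d ^ (n1 + 1) := by exact_mod_cast h2
        have h4 := (Nat.pow_lt_pow_iff_right (by omega : 1 < g.d)).1 h3
        omega
      · rw [hM]
        have h1 : (n1 : ℝ) ≤ c * Real.log X / Real.log g.d := by
          rw [le_div_iff₀ hL]
          have h2 : (g.d : ℝ) ^ n1 ≤ X ^ c := hn1.trans hY2
          have h3 := Real.log_le_log (by positivity) h2
          rw [Real.log_pow, Real.log_rpow hXp] at h3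
          exact h3
        have h2 : n1 ≤ ⌊c * Real.log X / Real.log g.d⌋₊ := Nat.le_floor h1
        omega
    · rw [mem_filter]
      refine ⟨hA hi, ?_⟩
      have hdp : (0 : ℤ) < (g.d : ℤ) ^ n1 := by
        have : (0 : ℤ) < g.d := by omega
        positivity
      have h3 := Int.emod_nonneg (t i) hdp.ne'
      have h4 := Int.emod_lt_of_pos (t i) hdp
      rw [hW]
      simp only [mem_filter, mem_Ioc]
      refine ⟨⟨by omega, by omega⟩, t i, ?_, hSC, hU⟩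
      exact (Int.mod_modEq _ _).symm
  -- the sizes
  have hA1c : (A1.card : ℝ) ≤ C3 * (C₀ * g.d) * (y : ℝ) ^ (-(1 : ℝ)) * (T.card : ℝ) := by
    have hZ1 : 1 ≤ (X ^ c) ^ D := Real.one_le_rpow hXc1 hD0.le
    obtain ⟨m, hm1, hm2, -⟩ := scale g.d hd2 X hX
    have hm0 : (0 : ℝ) < (g.d : ℝ) ^ m := by positivity
    have h1 := hlow ((X ^ c) ^ D) hZ1 ι T A1 t (C₀ * g.d * X ^ (-(1 / 2 : ℝ)) * T.card) ((filter_subset _ _).trans hA) (by positivity) (by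
      intro a
      have h2 := hT m hm1 a
      have h3 : ((A1.filter (fun i => t i = a)).card : ℝ) ≤ ((T.filter (fun i => t i ≡ a [ZMOD (g.d : ℤ) ^ m])).card : ℝ) := by
        apply Nat.cast_le.2
        apply card_le_card
        intro i hi
        rw [mem_filter] at hi ⊢
        refine ⟨hA ((mem_filter.1 hi.1).1), ?_⟩
        rw [hi.2]
      refine h3.trans (h2.trans ?_)
      rw [div_eq_mul_inv, ← Real.rpow_neg hm0.le]
      have h4 : ((g.d : ℝ) ^ m) ^ (-(1 - δ1 / 2)) ≤ g.d * X ^ (-(1 / 2 : ℝ)) := by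
        have h5 : X / g.d ≤ (g.d : ℝ) ^ m := by
          rw [div_le_iff₀ hd0, ← pow_succ]
          exact hm2.le
        have h6 : 0 < X / g.d := by positivity
        have h7 : (1 : ℝ) ≤ (g.d : ℝ) ^ m := one_le_pow₀ hd1.le
        calc ((g.d : ℝ) ^ m) ^ (-(1 - δ1 / 2)) ≤ ((g.d : ℝ) ^ m) ^ (-(1 / 2 : ℝ)) :=
              Real.rpow_le_rpow_of_exponent_le h7 (by linarith)
          _ ≤ (X / g.d) ^ (-(1 / 2 : ℝ)) := Real.rpow_le_rpow_of_nonpos h6 h5 (by norm_num)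
          _ = (g.d : ℝ) ^ (1 / 2 : ℝ) * X ^ (-(1 / 2 : ℝ)) := by
              rw [Real.div_rpow hXp.le hd0.le, Real.rpow_neg hd0.le, div_inv_eq_mul, mul_comm]
          _ ≤ (g.d : ℝ) ^ (1 : ℝ) * X ^ (-(1 / 2 : ℝ)) := by
              apply mul_le_mul_of_nonneg_right _ (by positivity)
              exact Real.rpow_le_rpow_of_exponent_le hd1.le (by norm_num)
          _ = _ := by rw [Real.rpow_one]
      calc C₀ * (T.card : ℝ) * ((g.d : ℝ) ^ m) ^ (-(1 - δ1 / 2)) ≤ C₀ * (T.card : ℝ) * (g.d * X ^ (-(1 / 2 : ℝ))) :=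
            mul_le_mul_of_nonneg_left h4 (by positivity)
        _ = _ := by ring) (by
      intro i hi
      rw [hA1, mem_filter] at hi
      exact hi.2)
    have h2 : ((X ^ c) ^ D) ^ (1 / (f.natDegree : ℝ)) ≤ (X ^ c) ^ D := by
      conv_rhs => rw [← Real.rpow_one ((X ^ c) ^ D)]
      apply Real.rpow_le_rpow_of_exponent_le hZ1
      have : (1 : ℝ) ≤ f.natDegree := by exact_mod_cast hdeg
      rw [div_le_one (by linarith)]
      exact this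
    have h5 : (X ^ c) ^ D * X ^ (-(1 / 2 : ℝ)) ≤ (y : ℝ) ^ (-(1 : ℝ)) := by
      rw [Real.rpow_neg_one]
      have h6 : (X ^ c) ^ D * X ^ (-(1 / 2 : ℝ)) * X ^ c ≤ 1 := by
        rw [← Real.rpow_mul hXp.le, ← Real.rpow_add hXp, ← Real.rpow_add hXp]
        apply Real.rpow_le_one_of_one_le_of_nonpos hX
        linarith [hcD.1, hcD.2]
      have h7 : (X ^ c) ^ D * X ^ (-(1 / 2 : ℝ)) ≤ (X ^ c)⁻¹ := by
        rw [← one_div, le_div_iff₀ (by linarith)]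
        exact h6
      exact h7.trans (inv_anti₀ hyp hyr)
    calc (A1.card : ℝ) ≤ C3 * ((X ^ c) ^ D) ^ (1 / (f.natDegree : ℝ)) * (C₀ * g.d * X ^ (-(1 / 2 : ℝ)) * T.card) := h1
      _ ≤ C3 * (X ^ c) ^ D * (C₀ * g.d * X ^ (-(1 / 2 : ℝ)) * T.card) := by gcongr
      _ = C3 * (C₀ * g.d) * ((X ^ c) ^ D * X ^ (-(1 / 2 : ℝ))) * T.card := by ring
      _ ≤ _ := by gcongr
  have hterm : ∀ n1 ∈ Ico N0 M, ((T.filter (fun i => t i % (g.d : ℤ) ^ n1 ∈ W n1)).card : ℝ) ≤ K1 * C₀ * ϑ ^ n1 * (T.card : ℝ) := by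
    intro n1 hn1
    rw [mem_Ico] at hn1
    have hp : (0 : ℝ) < (g.d : ℝ) ^ n1 := by positivity
    have hn1X : (g.d : ℝ) ^ n1 ≤ X := by
      have h2 : n1 ≤ ⌊c * Real.log X / Real.log g.d⌋₊ := by omega
      have h3 : (n1 : ℝ) ≤ c * Real.log X / Real.log g.d := (Nat.cast_le.2 h2).trans (Nat.floor_le (by positivity))
      rw [le_div_iff₀ hL] at h3
      refine le_trans ?_ hXcX
      rw [Real.rpow_def_of_pos hXp]
      calc (g.d : ℝ) ^ n1 = Real.exp (n1 * Real.log g.d) := by rw [Real.exp_nat_mul, Real.exp_log hd0]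
        _ ≤ _ := by
            apply Real.exp_le_exp.2
            linarith
    have h1 : ((T.filter (fun i => t i % (g.d : ℤ) ^ n1 ∈ W n1)).card : ℝ) ≤
        ∑ a ∈ W n1, ((T.filter (fun i => t i ≡ a [ZMOD (g.d : ℤ) ^ n1])).card : ℝ) := by
      have h2 : T.filter (fun i => t i % (g.d : ℤ) ^ n1 ∈ W n1) ⊆
          (W n1).biUnion (fun a => T.filter (fun i => t i ≡ a [ZMOD (g.d : ℤ) ^ n1])) := by
        intro i hi
        rw [mem_filter] at hi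
        rw [mem_biUnion]
        refine ⟨t i % (g.d : ℤ) ^ n1, hi.2, ?_⟩
        rw [mem_filter]
        exact ⟨hi.1, (Int.mod_modEq _ _).symm⟩
      have h3 := (card_le_card h2).trans card_biUnion_le
      exact_mod_cast h3
    refine h1.trans ((sum_le_sum (fun a _ => hT n1 hn1X a)).trans ?_)
    rw [sum_const, nsmul_eq_mul]
    have h2 := hWcard n1
    calc ((W n1).card : ℝ) * (C₀ * T.card / ((g.d : ℝ) ^ n1) ^ (1 - δ1 / 2)) ≤
          (K1 * ((g.d : ℝ) ^ n1) ^ (1 - δ1)) * (C₀ * T.card / ((g.d : ℝ) ^ n1) ^ (1 - δ1 / 2)) := by gcongr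
      _ = K1 * C₀ * (((g.d : ℝ) ^ n1) ^ (1 - δ1) * ((g.d : ℝ) ^ n1) ^ (-(1 - δ1 / 2))) * T.card := by
          rw [Real.rpow_neg hp.le]
          ring
      _ = K1 * C₀ * ((g.d : ℝ) ^ n1) ^ (-(δ1 / 2)) * T.card := by
          rw [← Real.rpow_add hp]
          congr 3
          ring
      _ = K1 * C₀ * ϑ ^ n1 * T.card := by
          rw [hϑ, ← Real.rpow_natCast, ← Real.rpow_natCast, ← Real.rpow_mul hd0.le, ← Real.rpow_mul hd0.le]
          congr 3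
          ring
  have hcard : (A.card : ℝ) ≤ (A1.card : ℝ) + ∑ n1 ∈ Ico N0 M, ((T.filter (fun i => t i % (g.d : ℤ) ^ n1 ∈ W n1)).card : ℝ) := by
    have h1 := (card_le_card hsub).trans ((card_union_le _ _).trans (Nat.add_le_add_left card_biUnion_le _))
    exact_mod_cast h1
  have hgeo : ∑ n1 ∈ Ico N0 M, ϑ ^ n1 ≤ ϑ ^ N0 / (1 - ϑ) := geom_sum_Ico_le_of_lt_one hϑ0.le hϑ1
  have hN0y : ϑ ^ N0 ≤ (g.d : ℝ) ^ (δ1 / 2) * (y : ℝ) ^ (-(δ1 / 2)) := by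
    have h2 : y < g.d ^ (N0 + 1) := Nat.lt_pow_succ_log_self (by omega) y
    have h5 : (y : ℝ) < (g.d : ℝ) ^ (N0 + 1) := by exact_mod_cast h2
    have h6 : ((g.d : ℝ) ^ (N0 + 1)) ^ (-(δ1 / 2)) ≤ (y : ℝ) ^ (-(δ1 / 2)) :=
      Real.rpow_le_rpow_of_nonpos hyp h5.le (by linarith)
    have h7 : ϑ ^ N0 = (g.d : ℝ) ^ (δ1 / 2) * ((g.d : ℝ) ^ (N0 + 1)) ^ (-(δ1 / 2)) := by
      rw [hϑ, ← Real.rpow_natCast, ← Real.rpow_natCast, ← Real.rpow_mul hd0.le, ← Real.rpow_mul hd0.le,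
        ← Real.rpow_add hd0]
      congr 1
      push_cast
      ring
    rw [h7]
    exact mul_le_mul_of_nonneg_left h6 (by positivity)
  have hsum : ∑ n1 ∈ Ico N0 M, ((T.filter (fun i => t i % (g.d : ℤ) ^ n1 ∈ W n1)).card : ℝ) ≤
      K1 * C₀ * (g.d : ℝ) ^ (δ1 / 2) / (1 - ϑ) * (y : ℝ) ^ (-(δ1 / 2)) * (T.card : ℝ) := by
    refine (sum_le_sum hterm).trans ?_
    rw [← sum_mul, ← mul_sum]
    apply mul_le_mul_of_nonneg_right _ hch0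
    calc K1 * C₀ * ∑ n1 ∈ Ico N0 M, ϑ ^ n1 ≤ K1 * C₀ * (ϑ ^ N0 / (1 - ϑ)) := mul_le_mul_of_nonneg_left hgeo (by positivity)
      _ ≤ K1 * C₀ * (((g.d : ℝ) ^ (δ1 / 2) * (y : ℝ) ^ (-(δ1 / 2))) / (1 - ϑ)) := by gcongr
      _ = _ := by ring
  have hfin1 : (y : ℝ) ^ (-(1 : ℝ)) ≤ (y : ℝ) ^ (-(2 * δ)) := by
    apply Real.rpow_le_rpow_of_exponent_le hy1
    have : δ ≤ 1 / 2 := by rw [hδ]; exact min_le_right _ _
    linarith
  have hfin2 : (y : ℝ) ^ (-(δ1 / 2)) ≤ (y : ℝ) ^ (-(2 * δ)) := by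
    apply Real.rpow_le_rpow_of_exponent_le hy1
    have : δ ≤ δ1 / 4 := by rw [hδ]; exact min_le_left _ _
    linarith
  calc (A.card : ℝ) ≤ C3 * (C₀ * g.d) * (y : ℝ) ^ (-(1 : ℝ)) * (T.card : ℝ) +
        K1 * C₀ * (g.d : ℝ) ^ (δ1 / 2) / (1 - ϑ) * (y : ℝ) ^ (-(δ1 / 2)) * (T.card : ℝ) :=
        hcard.trans (add_le_add hA1c hsum)
    _ ≤ C3 * (C₀ * g.d) * (y : ℝ) ^ (-(2 * δ)) * (T.card : ℝ) +
        K1 * C₀ * (g.d : ℝ) ^ (δ1 / 2) / (1 - ϑ) * (y : ℝ) ^ (-(2 * δ)) * (T.card : ℝ) := by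
        have h0 : 0 ≤ K1 * C₀ * (g.d : ℝ) ^ (δ1 / 2) / (1 - ϑ) := by positivity
        gcongr
    _ = B * (y : ℝ) ^ (-(2 * δ)) * (T.card : ℝ) := by rw [hB]; ring
    _ ≤ (y : ℝ) ^ δ * (y : ℝ) ^ (-(2 * δ)) * (T.card : ℝ) := by gcongr
    _ = _ := by
        rw [← Real.rpow_add hyp]
        congr 2
        ring

/-- the law for the whole range -/
theorem traj_powF {g : GM} {b : ℤ → ℤ} {e : ℤ → ℕ} {C : Finset (ℤ × ℕ)} {ρ : ℤ × ℕ → ℝ} (hf : g.Fac b e)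
    (hC : g.Cls e C ρ) {f : ℤ[X]} (hdeg : 1 ≤ f.natDegree) {ε : ℝ} (hε : 0 < ε) (H : ℝ) :
    ∃ c δ τ : ℝ, 0 < c ∧ c ≤ 1 ∧ 0 < δ ∧ 0 < τ ∧ ∀ C₀ : ℝ, 0 < C₀ → ∃ X₀ : ℝ, 1 ≤ X₀ ∧ ∀ X : ℝ, X₀ ≤ X →
    ∀ (ι : Type) (T : Finset ι) (t : ι → ℤ), Fro g.d T t C₀ τ X →
    ∀ A ⊆ T, (∀ i ∈ A, f.eval (t i) ∈ g.SC C ∧
      ¬ ((X ^ c) ^ H ≤ |((f.eval (t i) : ℤ) : ℝ)| ∧ Typ g (mu g C ρ) ε (X ^ c) (f.eval (t i)))) →
    (A.card : ℝ) ≤ X ^ (-δ) * T.card := by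
  obtain ⟨c, δ, τ, hc, hc1, hδ, hτ, h⟩ := trajF hf hC hdeg hε H
  refine ⟨c, c * δ / 2, τ, hc, hc1, by positivity, hτ, fun C₀ hC₀ => ?_⟩
  obtain ⟨y₀, h⟩ := h C₀ hC₀
  have hev : ∀ᶠ X : ℝ in atTop, 1 ≤ X ∧ (y₀ : ℝ) + 1 ≤ X ^ c ∧ (2 : ℝ) ^ δ ≤ X ^ (c * δ / 2) := by
    filter_upwards [eventually_ge_atTop 1, (tendsto_rpow_atTop hc).eventually (eventually_ge_atTop _),
      (tendsto_rpow_atTop (by positivity : 0 < c * δ / 2)).eventually (eventually_ge_atTop _)] with s a0 a1 a2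
    exact ⟨a0, a1, a2⟩
  obtain ⟨X₀, hX₀⟩ := eventually_atTop.1 hev
  refine ⟨max X₀ 1, le_max_right _ _, fun X hX ι T t hT A hA hbad => ?_⟩
  obtain ⟨hX1, h1, h2⟩ := hX₀ X ((le_max_left _ _).trans hX)
  have hXp : 0 < X := by linarith
  have hE1 : 1 ≤ X ^ c := Real.one_le_rpow hX1 hc.le
  obtain ⟨y, hy⟩ : ∃ y, y = ⌊X ^ c⌋₊ := ⟨_, rfl⟩
  have hyle : (y : ℝ) ≤ X ^ c := by rw [hy]; exact Nat.floor_le (by positivity)
  have hylt : X ^ c < y + 1 := by rw [hy]; exact Nat.lt_floor_add_one _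
  have hy0 : y₀ ≤ y := by
    rw [hy]
    apply Nat.le_floor
    linarith
  have h3 := h y hy0 X hX1 ι T t hT A hA (fun i hi => ⟨(hbad i hi).1, X ^ c, hyle, le_rfl, (hbad i hi).2⟩)
  refine h3.trans ?_
  apply mul_le_mul_of_nonneg_right _ (Nat.cast_nonneg _)
  have hy1 : (1 : ℝ) ≤ y := by
    have : 1 ≤ y := by
      rw [hy]
      apply Nat.le_floor
      rw [Nat.cast_one]
      exact hE1
    exact_mod_cast this
  have h4 : X ^ c / 2 ≤ y := by linarith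
  have h5 : (y : ℝ) ^ (-δ) ≤ (X ^ c / 2) ^ (-δ) :=
    Real.rpow_le_rpow_of_nonpos (by positivity) h4 (by linarith)
  refine h5.trans ?_
  rw [Real.div_rpow (by positivity) (by norm_num), Real.rpow_neg (by norm_num : (0 : ℝ) ≤ 2), div_inv_eq_mul, ← Real.rpow_mul hXp.le]
  calc X ^ (c * -δ) * 2 ^ δ ≤ X ^ (c * -δ) * X ^ (c * δ / 2) :=
        mul_le_mul_of_nonneg_left h2 (Real.rpow_pos_of_pos hXp _).le
    _ = X ^ (-(c * δ / 2)) := by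
        rw [← Real.rpow_add hXp]
        congr 1
        ring

end Pool.Agent.K7.H67.EXC
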